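import Pool.Agent.N983.RT.Asm2
import Pool.Agent.N983.RT.SUM
import Pool.Agent.N983.RT.ALG
import Pool.Agent.N983.RT.SHL
import Pool.Agent.N983.RT.EST
import Pool.Agent.N983.RT.APR2
import Pool.Agent.N983.RT.ODE
import Pool.Agent.N983.RT.RHS
import Pool.Agent.N983.RT.CMP
import Pool.Agent.N983.RT.UNQ
import Pool.Agent.N983.RT.HOE2
import Pool.Agent.N983.RT.UNI2
import Pool.Agent.N983.RT.DIG
import Pool.Agent.N983.RT.BCS2
import Pool.Agent.N983.RT.PNT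
import Pool.Agent.N983.WK.Asm2
import Pool.Agent.N983.WK.TRB
import Pool.Agent.N983.WK.CVB
import Pool.Agent.N983.WK.PRB
import Pool.Agent.N983.WK.ANT
import Pool.Agent.N983.WK.SQ
import Pool.Agent.N983.WK.MSB
import Pool.Agent.N983.WK.BAL
import Pool.Agent.N983.WK.EEQ
import Pool.Agent.N983.WK.GRO
import Pool.Agent.N983.WK.STB
import Pool.Agent.N983.WK.ENT
import Pool.Agent.N983.WK.SMT
import Pool.Agent.N983.WK.CPT
import Pool.Agent.N983.WK.FZ1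
import Pool.Agent.N983.WK.FZ2
import Pool.Agent.N983.WK.SW
import Pool.Agent.N983.WK.WSU

/-!
The Navier-Stokes equations on the torus `(ℝ / 2πℤ) ^ 3` with independent centred random
coefficients of the triad interactions: almost surely every datum of finite energy has exactly one
weak solution, it is smooth for positive times, and it depends on the datum in a Lipschitz
continuous way.
-/

set_option autoImplicit false

namespace Pool.Agent.Results.MP_d762fe_an.CentredTriads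

open MeasureTheory ProbabilityTheory Pool.Agent.N983.RT Pool.Agent.N983.WK

theorem result (Ω : Type) [MeasurableSpace Ω] (μ : Measure Ω) [IsProbabilityMeasure μ]
    (X : Sym2 (Finset Wv) → Ω → ℝ) (hX : ∀ c, Measurable (X c)) (hi : iIndepFun X μ)
    (hX1 : ∀ c, ∀ᵐ ω ∂μ, |X c ω| ≤ 1) (hX0 : ∀ c, ∫ ω, X c ω ∂μ = 0) :
    ∀ᵐ ω ∂μ, ∀ ν α : ℝ, 0 < ν → 1 / 2 < α →
      (∀ u₀ : Fld, Adm u₀ → (∃ C : ℝ, ∀ n, En 0 n u₀ ≤ C) → ∃ u : ℝ → Fld, u 0 = u₀ ∧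
        (∀ T, 0 ≤ T → IsWeak (sgn X ω) ν α T u) ∧
        (∀ τ, 0 < τ → IsSol (sgn X ω) ν α fun t => u (τ + t)) ∧
        ∀ (T : ℝ) (v : ℝ → Fld), IsWeak (sgn X ω) ν α T v → v 0 = u₀ →
          ∀ t ∈ Set.Icc 0 T, v t = u t) ∧
      ∀ R T : ℝ, 0 ≤ T → ∃ K : ℝ, ∀ u v : ℝ → Fld, IsWeak (sgn X ω) ν α T u →
        IsWeak (sgn X ω) ν α T v → (∀ n, En 0 n (u 0) ≤ R) → (∀ n, En 0 n (v 0) ≤ R) →
        ∀ δ : ℝ, (∀ n, En 0 n (u 0 - v 0) ≤ δ) →
          ∀ t ∈ Set.Icc 0 T, ∀ n, En 0 n (u t - v t) ≤ K * δ := by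
  have h := asm2_rand t_SUM t_ALG (t_EST t_SHL) t_APR2 t_ODE t_RHS t_CMP t_UNQ t_UNI2 t_HOE2
    t_DIG t_BCS2 t_PNT t_CVB t_PRB t_TRB t_ANT t_BAL t_SQ t_MSB t_GRO t_STB t_FZ1 t_FZ2 t_EEQ
    t_ENT t_SMT t_CPT t_SW t_WSU Ω μ X hX hi hX1 0 0 (by
      intro k l m _ _ _ _
      have h1 : ∫ ω, sgn X ω k l m ∂μ = 0 := hX0 _
      rw [h1]
      simp)
  filter_upwards [h] with ω hω
  intro ν α hν hα
  obtain ⟨-, hR, -, hS⟩ := hω ν α hν (max_lt hα (by linarith))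
  have hS := hS hX0
  refine ⟨?_, hS⟩
  intro u₀ hA hE
  obtain ⟨u, a1, a2, a3⟩ := hR u₀ hA hE
  refine ⟨u, a1, a2, a3, ?_⟩
  intro T v hv hv0 t ht
  obtain ⟨C, hC⟩ := hE
  have hT : 0 ≤ T := ht.1.trans ht.2
  obtain ⟨K, hK⟩ := hS C T hT
  have h1 := hK v u hv (a2 T hT) (by rw [hv0]; exact hC) (by rw [a1]; exact hC) 0 (by
    intro n
    rw [hv0, a1, sub_self]
    simp [En]) t ht
  funext m j
  obtain ⟨n, hn⟩ : ∃ n : ℕ, m ∈ cub n := by
    refine ⟨∑ i, (m i).natAbs, ?_⟩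
    unfold cub
    rw [Fintype.mem_piFinset]
    intro i
    rw [Finset.mem_Icc]
    have h2 : (m i).natAbs ≤ ∑ i, (m i).natAbs :=
      Finset.single_le_sum (f := fun i => (m i).natAbs) (fun _ _ => Nat.zero_le _)
        (Finset.mem_univ i)
    omega
  have h2 := h1 n
  rw [mul_zero] at h2
  unfold En at h2
  have h3 : ∀ k ∈ cub n, 0 ≤ nsq k ^ 0 * ∑ i, ‖(v t - u t) k i‖ ^ 2 := by
    intro k _
    rw [pow_zero, one_mul]
    exact Finset.sum_nonneg fun i _ => by positivity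
  have h4 := (Finset.sum_eq_zero_iff_of_nonneg h3).1 (le_antisymm h2 (Finset.sum_nonneg h3)) m hn
  rw [pow_zero, one_mul] at h4
  have h5 := (Finset.sum_eq_zero_iff_of_nonneg (fun i _ => by positivity)).1 h4 j
    (Finset.mem_univ j)
  have h6 : (v t - u t) m j = 0 := by
    rw [← norm_eq_zero]
    exact pow_eq_zero_iff (two_ne_zero) |>.1 h5
  exact sub_eq_zero.1 h6

end Pool.Agent.Results.MP_d762fe_an.CentredTriads
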