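import Pool.Agent.N983.RT.SUM
import Pool.Agent.N983.RT.ALG
import Pool.Agent.N983.RT.SHL
import Pool.Agent.N983.RT.EST
import Pool.Agent.N983.RT.ODE
import Pool.Agent.N983.RT.RHS
import Pool.Agent.N983.RT.CS
import Pool.Agent.N983.RT.IND
import Pool.Agent.N983.RT.ESY
import Pool.Agent.N983.RT.TAIL
import Pool.Agent.N983.RT.LAT
import Pool.Agent.N983.RT.BCD
import Pool.Agent.N983.WK.CVB
import Pool.Agent.N983.WK.PRB
import Pool.Agent.N983.WK.TRB
import Pool.Agent.N983.WK.ANT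
import Pool.Agent.N983.WK.BAL
import Pool.Agent.N983.WK.SQ
import Pool.Agent.N983.WK.MSB
import Pool.Agent.N983.WK.GRO
import Pool.Agent.N983.WK.STB
import Pool.Agent.N983.WK.FX1
import Pool.Agent.N983.WK.EEQ
import Pool.Agent.N983.WK.ENT
import Pool.Agent.N983.WK.SMT
import Pool.Agent.N983.WK.CPT
import Pool.Agent.N983.WK.Asm6

/-!
Randomly decimated Navier-Stokes equations on the torus `(ℝ / 2πℤ) ^ 3` (fractal Fourier
decimation): every pair `k, -k` of opposite wave vectors is kept, independently of the others, with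
probability at most `|k| ^ (-a)`, and the equations are projected on the wave vectors which are kept.
Their number in a ball of radius `R` is about `R ^ (3 - a)`.

If `α > max (1/2) (5/4 - 3a/4)` then almost surely every datum of finite energy with wave vectors in
the random set has exactly one weak solution, it is smooth for positive times, and it depends on the
datum in a Lipschitz continuous way. For `α = 1` this is the dimension `3 - a < 8 / 3`.
-/

set_option autoImplicit false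

namespace Pool.Agent.Results.MP_d762fe_an.FourierDecimation

open MeasureTheory ProbabilityTheory Pool.Agent.N983.RT Pool.Agent.N983.WK

theorem result (a : ℝ) (ha : 0 ≤ a) (Ω : Type) [MeasurableSpace Ω] (μ : Measure Ω)
    [IsProbabilityMeasure μ] (Y : Sym2 Wv → Ω → ℝ) (hY : ∀ c, Measurable (Y c))
    (hi : iIndepFun Y μ)
    (hs : ∀ k, k ≠ 0 → μ {ω | Y s(k, -k) ω = 1} ≤ ENNReal.ofReal (nsq k ^ (-a / 2))) :
    ∀ᵐ ω ∂μ, ∀ ν α : ℝ, 0 < ν → 1 / 2 < α → 5 / 4 - 3 * a / 4 < α →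
      (∀ u₀ : Fld, Adm u₀ → (∃ C : ℝ, ∀ n, En 0 n u₀ ≤ C) → (∀ k, k ∉ kept Y ω → u₀ k = 0) →
        ∃ u : ℝ → Fld, u 0 = u₀ ∧ (∀ t, 0 ≤ t → ∀ k, k ∉ kept Y ω → u t k = 0) ∧
          (∀ T, 0 ≤ T → IsWeak (dec (kept Y ω)) ν α T u) ∧
          (∀ τ, 0 < τ → IsSol (dec (kept Y ω)) ν α fun t => u (τ + t)) ∧
          ∀ (T : ℝ) (v : ℝ → Fld), IsWeak (dec (kept Y ω)) ν α T v → v 0 = u₀ →
            ∀ t ∈ Set.Icc 0 T, v t = u t) ∧
      ∀ R T : ℝ, 0 ≤ T → ∃ K : ℝ, ∀ u v : ℝ → Fld, IsWeak (dec (kept Y ω)) ν α T u →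
        IsWeak (dec (kept Y ω)) ν α T v → (∀ n, En 0 n (u 0) ≤ R) → (∀ n, En 0 n (v 0) ≤ R) →
        ∀ δ : ℝ, (∀ n, En 0 n (u 0 - v 0) ≤ δ) →
          ∀ t ∈ Set.Icc 0 T, ∀ n, En 0 n (u t - v t) ≤ K * δ :=
  asm6_dec t_SUM t_ALG (t_EST t_SHL) t_ODE t_RHS t_CVB t_PRB t_TRB t_ANT t_BAL t_SQ t_MSB t_GRO
    t_STB t_FX1 t_EEQ t_ENT t_SMT t_CPT t_CS t_IND t_ESY t_TAIL t_LAT t_BCD a ha Ω μ Y hY hi hs

end Pool.Agent.Results.MP_d762fe_an.FourierDecimation
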