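import Pool.Agent.N983.RT.Asm2
import Pool.Agent.N983.RT.SUM
import Pool.Agent.N983.RT.ALG
import Pool.Agent.N983.RT.SHL
import Pool.Agent.N983.RT.EST
import Pool.Agent.N983.RT.APR2
import Pool.Agent.N983.RT.ODE
import Pool.Agent.N983.RT.RHS
import Pool.Agent.N983.RT.CMP
import Pool.Agent.N983.RT.UNQ
import Pool.Agent.N983.RT.HOE2
import Pool.Agent.N983.RT.UNI2
import Pool.Agent.N983.RT.DIG
import Pool.Agent.N983.RT.BCS2
import Pool.Agent.N983.RT.PNT
import Pool.Agent.N983.WK.Asm2
import Pool.Agent.N983.WK.TRB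
import Pool.Agent.N983.WK.CVB
import Pool.Agent.N983.WK.PRB
import Pool.Agent.N983.WK.ANT
import Pool.Agent.N983.WK.SQ
import Pool.Agent.N983.WK.MSB
import Pool.Agent.N983.WK.BAL
import Pool.Agent.N983.WK.EEQ
import Pool.Agent.N983.WK.GRO
import Pool.Agent.N983.WK.STB
import Pool.Agent.N983.WK.ENT
import Pool.Agent.N983.WK.SMT
import Pool.Agent.N983.WK.CPT
import Pool.Agent.N983.WK.FZ1
import Pool.Agent.N983.WK.FZ2
import Pool.Agent.N983.WK.SW
import Pool.Agent.N983.WK.WSU

/-!
The Navier-Stokes equations on the torus `(ℝ / 2πℤ) ^ 3` with random coefficients of the triad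
interactions.

In Fourier variables the (hyperdissipative) Navier-Stokes equations are
`∂ₜ uₘ = - ν |m|^(2α) uₘ - i Pₘ ∑_{k + l = m} (u_k · l) u_l`. We put a random coefficient in front of
the interaction of the triad `k, l, -m`; it is the same for the permutations of the triad and for
the opposite triad, and the coefficients of different triads are independent and at most one in
absolute value. If the mean of the coefficient of the triad `k, l, m`
is at most a constant times `(longest)^(2β) / (shortest)^(5/2)`, then almost surely, for all `ν > 0`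
and all `α > max (1/2) β`, every smooth datum has a global smooth solution, and this solution is
unique among all weak solutions of bounded energy and finite dissipation.

For instance, for `α = 1` the coefficients may be those of the Navier-Stokes equations themselves
for all triads whose shortest wave vector has at most the length `N^θ`, `N` the length of the
longest one, `θ < 4/5`, and independent random signs for the other triads.
-/

set_option autoImplicit false

namespace Pool.Agent.Results.MP_d762fe_an.RandomTriads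

open MeasureTheory ProbabilityTheory Pool.Agent.N983.RT Pool.Agent.N983.WK

theorem result (Ω : Type) [MeasurableSpace Ω] (μ : Measure Ω) [IsProbabilityMeasure μ]
    (X : Sym2 (Finset Wv) → Ω → ℝ) (hX : ∀ c, Measurable (X c)) (hi : iIndepFun X μ)
    (hX1 : ∀ c, ∀ᵐ ω ∂μ, |X c ω| ≤ 1) (B β : ℝ)
    (hm : ∀ k l m : Wv, k ≠ 0 → l ≠ 0 → m ≠ 0 → k + l + m = 0 →
      |∫ ω, sgn X ω k l m ∂μ| * min (nsq k) (min (nsq l) (nsq m)) ^ (5 / 4 : ℝ) ≤
        B * max (nsq k) (max (nsq l) (nsq m)) ^ β) :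
    ∀ᵐ ω ∂μ, ∀ ν α : ℝ, 0 < ν → 1 / 2 < α → β < α → ∀ u₀ : Fld, Adm u₀ → Rapid u₀ →
      ∃ u : ℝ → Fld, u 0 = u₀ ∧ IsSol (sgn X ω) ν α u ∧
        (∀ T, 0 ≤ T → IsWeak (sgn X ω) ν α T u) ∧
        ∀ (T : ℝ) (v : ℝ → Fld), IsWeak (sgn X ω) ν α T v → v 0 = u₀ →
          ∀ t ∈ Set.Icc 0 T, v t = u t := by
  have h := asm2_rand t_SUM t_ALG (t_EST t_SHL) t_APR2 t_ODE t_RHS t_CMP t_UNQ t_UNI2 t_HOE2
    t_DIG t_BCS2 t_PNT t_CVB t_PRB t_TRB t_ANT t_BAL t_SQ t_MSB t_GRO t_STB t_FZ1 t_FZ2 t_EEQ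
    t_ENT t_SMT t_CPT t_SW t_WSU Ω μ X hX hi hX1 B β hm
  have h1 : ∀ᵐ ω ∂μ, Arr (sgn X ω) := by
    filter_upwards [ae_all_iff.2 hX1] with ω hω
    exact asm_arr_sgn X ω hω
  filter_upwards [h, h1] with ω hω hg
  intro ν α hν h2 h3 u₀ hA hR
  obtain ⟨u, a1, a2, a3⟩ := (hω ν α hν (max_lt h2 h3)).1 u₀ hA hR
  exact ⟨u, a2, a1, fun T hT => t_SW t_SUM t_CVB t_MSB _ ν α T hg hT (by linarith) u a1, a3⟩

end Pool.Agent.Results.MP_d762fe_an.RandomTriads
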